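import Pool.Agent.H957.HN.Main

/-! # The Hilbert numbers grow at least like `n² (log n)²`

For every `c < 1 / (8 (log 2)²)` and all large `n` there is a planar polynomial system of degree at
most `n` with finitely many closed orbits and at least `c n² (log n)²` limit cycles. The known lower
bounds (Christopher-Lloyd 1995 and later) are of the order `n² log n`. -/

open Set Filter Topology
open scoped ENNReal

namespace Pool.Agent.Results.MP_95e7ec_an.LogSquaredLowerBound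

/-- the set of all closed orbits (ranges of nonconstant periodic solutions) in the plane of the
system `x' = P, y' = Q` -/
def closedOrbits (P Q : MvPolynomial (Fin 2) ℝ) : Set (Set (ℝ × ℝ)) :=
  {C | ∃ γ : ℝ → ℝ × ℝ, ∃ T : ℝ, 0 < T ∧
    (∀ t : ℝ, HasDerivAt γ
      (MvPolynomial.eval ![(γ t).1, (γ t).2] P, MvPolynomial.eval ![(γ t).1, (γ t).2] Q) t) ∧
    (∀ t : ℝ, γ (t + T) = γ t) ∧ (∃ s t : ℝ, γ s ≠ γ t) ∧ C = Set.range γ}

/-- the set of all limit cycles: closed orbits with a neighbourhood which contains no other closed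
orbit -/
def limitCycles (P Q : MvPolynomial (Fin 2) ℝ) : Set (Set (ℝ × ℝ)) :=
  {C | C ∈ closedOrbits P Q ∧
    ∃ U : Set (ℝ × ℝ), IsOpen U ∧ C ⊆ U ∧ ∀ D ∈ closedOrbits P Q, D ⊆ U → D = C}

/-- the Hilbert number `H_n`: the supremum of the number of limit cycles of the systems of degree
at most `n` -/
noncomputable def hilbertNumber (n : ℕ) : ℕ∞ :=
  ⨆ (P : MvPolynomial (Fin 2) ℝ) (Q : MvPolynomial (Fin 2) ℝ)
    (_ : P.totalDegree ≤ n ∧ Q.totalDegree ≤ n), (limitCycles P Q).encard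

/-- there is a system of degree at most `n` which has finitely many closed orbits, all of them
limit cycles, and their number is at least `x` -/
def Realized (n : ℕ) (x : ℝ) : Prop :=
  ∃ P Q : MvPolynomial (Fin 2) ℝ, P.totalDegree ≤ n ∧ Q.totalDegree ≤ n ∧
    (closedOrbits P Q).Finite ∧ limitCycles P Q = closedOrbits P Q ∧
    x ≤ ((limitCycles P Q).ncard : ℝ)

/-! ### proofs -/

theorem realized_of {n s J : ℕ} (hs : 1 ≤ s) (hJ : 2 ≤ J) (hn : s * 2 ^ J ≤ n + 1) :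
    Realized n (((s * 2 ^ J : ℕ) : ℝ) ^ 2 * (((J : ℝ) - 1) ^ 2 - 4) / 8) := by
  obtain ⟨P, Q, hP, hQ, hfin, hcnt⟩ := H957.HN.all n s J hs hJ hn
  have hset : {C | Y300.ClosedOrbit (H709R2.field P Q) C} = closedOrbits P Q := rfl
  have hV : ContDiff ℝ 1 (H709R2.field P Q) := H709R2.contDiff_field P Q
  have hlim : limitCycles P Q = closedOrbits P Q := by
    refine Subset.antisymm (fun C hC => hC.1) fun C hC => ⟨hC, ?_⟩
    obtain ⟨U, hU, hCU, h⟩ := H957.HN.iso hV hfin (C := C) hC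
    exact ⟨U, hU, hCU, fun D hD hDU => h D hD hDU⟩
  rw [hset] at hfin hcnt
  refine ⟨P, Q, hP, hQ, hfin, hlim, ?_⟩
  rw [hlim]
  have h1 : ((H957.HN.cnt (s * 2 ^ J) J : ℕ) : ℕ∞) ≤ ((closedOrbits P Q).ncard : ℕ∞) := by
    rw [hfin.cast_ncard_eq]
    exact hcnt
  have h2 : H957.HN.cnt (s * 2 ^ J) J ≤ (closedOrbits P Q).ncard := by exact_mod_cast h1
  have h3 : ((H957.HN.cnt (s * 2 ^ J) J : ℕ) : ℝ) ≤ ((closedOrbits P Q).ncard : ℝ) := by
    exact_mod_cast h2
  exact (H957.HN.count s J hs hJ).trans h3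

theorem le_hilbertNumber {n : ℕ} {x : ℝ} (h : Realized n x) :
    ENNReal.ofReal x ≤ ((hilbertNumber n : ℕ∞) : ℝ≥0∞) := by
  obtain ⟨P, Q, hP, hQ, hfin, hlim, hx⟩ := h
  have h1 : (limitCycles P Q).encard ≤ hilbertNumber n :=
    le_iSup_of_le P (le_iSup_of_le Q (le_iSup_of_le ⟨hP, hQ⟩ le_rfl))
  refine (ENNReal.ofReal_le_ofReal hx).trans ?_
  rw [ENNReal.ofReal_natCast]
  have h2 : ((limitCycles P Q).ncard : ℕ∞) ≤ hilbertNumber n := by
    rw [(hlim ▸ hfin : (limitCycles P Q).Finite).cast_ncard_eq]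
    exact h1
  exact_mod_cast ENat.toENNReal_le.2 h2

/-- **`liminf H_n / (n² (log n)²) ≥ 1 / (8 (log 2)²)`.** -/
theorem result :
    (∀ J : ℕ, 2 ≤ J → Realized (2 ^ J - 1) (4 ^ J * (((J : ℝ) - 1) ^ 2 - 4) / 8)) ∧
    (∀ c : ℝ, c < 1 / (8 * Real.log 2 ^ 2) → ∃ n₀ : ℕ, ∀ n : ℕ, n₀ ≤ n →
      Realized n (c * n ^ 2 * Real.log n ^ 2) ∧
      ENNReal.ofReal (c * n ^ 2 * Real.log n ^ 2) ≤ ((hilbertNumber n : ℕ∞) : ℝ≥0∞)) := by
  constructor
  · intro J hJ
    have h1 := realized_of (n := 2 ^ J - 1) (s := 1) (J := J) le_rfl hJ (by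
      have : 0 < 2 ^ J := by positivity
      omega)
    have h2 : ((1 * 2 ^ J : ℕ) : ℝ) ^ 2 = 4 ^ J := by
      push_cast
      rw [one_mul, ← pow_mul, mul_comm, pow_mul]
      norm_num
    rwa [h2] at h1
  · intro c hc
    obtain ⟨n₀, h⟩ := H957.HN.asym c hc
    refine ⟨n₀, fun n hn => ?_⟩
    obtain ⟨s, J, hs, hJ, hsn, hle⟩ := h n hn
    obtain ⟨P, Q, hP, hQ, hfin, hlim, hx⟩ := realized_of hs hJ hsn
    have hr : Realized n (c * n ^ 2 * Real.log n ^ 2) :=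
      ⟨P, Q, hP, hQ, hfin, hlim, hle.trans hx⟩
    exact ⟨hr, le_hilbertNumber hr⟩

end Pool.Agent.Results.MP_95e7ec_an.LogSquaredLowerBound
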